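import Pool.Agent.Helper65_PV.Stmts

/-!
Squad PV: modules UO and DO (the sets `U` and `DD` are open).
-/

set_option autoImplicit false

open MeasureTheory Metric Set Filter Topology

namespace PV.H69

/-- Points of a convex body are close to points of a nearby convex body. -/
theorem near {n : ℕ} (K L : ConvexBody (E n)) (x : E n) (hx : x ∈ (K : Set (E n))) (r : ℝ)
    (h : dist K L < r) : ∃ y ∈ (L : Set (E n)), dist x y < r := by
  rw [← ConvexBody.hausdorffDist_coe] at h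
  exact Metric.exists_dist_lt_of_hausdorffDist_lt hx h ConvexBody.hausdorffEDist_ne_top

/-- The common compactness argument. -/
theorem open_of (hCO : COStmt) (hBL : BLStmt) (hFO : FOStmt) (n : ℕ) (hn : 2 ≤ n) (R : ℝ)
    (P : ConvexBody (E n) → ConvexBody (E n) → Prop)
    (hP : ∀ (Ks Ls : ℕ → ConvexBody (E n)) (K L : ConvexBody (E n)),
      Tendsto Ks atTop (𝓝 K) → Tendsto Ls atTop (𝓝 L) → P K L → ∃ j, P (Ks j) (Ls j)) :
    IsOpen {K : ConvexBody (E n) | Full (K : Set (E n)) ∧ ∀ L : ConvexBody (E n),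
      Full (L : Set (E n)) → (L : Set (E n)) ⊆ closedBall 0 R →
      SameData (K : Set (E n)) (L : Set (E n)) → P K L} := by
  rw [← isClosed_compl_iff]
  apply IsSeqClosed.isClosed
  intro Ks K hKs hlim hK
  obtain ⟨hF, hK⟩ := hK
  have hev : ∀ᶠ j in atTop, Full (Ks j : Set (E n)) :=
    hlim.eventually ((hFO n).mem_nhds hF)
  obtain ⟨N, hN⟩ := eventually_atTop.1 hev
  have hch : ∀ j, ∃ L : ConvexBody (E n), Full (L : Set (E n)) ∧
      (L : Set (E n)) ⊆ closedBall 0 R ∧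
      SameData (Ks (j + N) : Set (E n)) (L : Set (E n)) ∧ ¬ P (Ks (j + N)) L := by
    intro j
    have h1 := hKs (j + N)
    simp only [mem_compl_iff, mem_setOf_eq, not_and, not_forall] at h1
    obtain ⟨L, hL, hLs, hd, hp⟩ := h1 (hN _ (by omega))
    exact ⟨L, hL, hLs, hd, hp⟩
  choose Ls hLF hLs hLd hLp using hch
  obtain ⟨L', φ, hφ, hLim, hL'⟩ := hBL n R Ls hLs
  have hKlim : Tendsto (fun j => Ks (φ j + N)) atTop (𝓝 K) :=
    hlim.comp ((tendsto_add_atTop_nat N).comp hφ.tendsto_atTop)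
  obtain ⟨h1, h2⟩ := hCO n hn (fun j => Ks (φ j + N)) (Ls ∘ φ) K L'
    (fun j => ⟨hN _ (by omega), hLF _, hLd _⟩) hKlim hLim hF
  obtain ⟨j, hj⟩ := hP (fun j => Ks (φ j + N)) (Ls ∘ φ) K L' hKlim hLim (hK L' h1 hL' h2)
  exact hLp _ hj

/-- Module DO. -/
theorem doo (hCO : COStmt) (hBL : BLStmt) (hFO : FOStmt) : DOStmt := by
  intro n hn m
  apply open_of hCO hBL hFO n hn (m : ℝ) (fun K L => dist K L < 1 / ((m : ℝ) + 1))
  intro Ks Ls K L hK hL h
  exact ((hK.dist hL).eventually (gt_mem_nhds h)).exists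

/-- Module UO. -/
theorem uo (hCO : COStmt) (hBL : BLStmt) (hFO : FOStmt) : UOStmt := by
  intro n hn ν m
  apply open_of hCO hBL hFO n hn (m : ℝ) (fun K L => ∃ x ∈ (L : Set (E n)),
    infDist x (K : Set (E n)) < 1 / ((m : ℝ) + 1) ∧
      ∀ y ∈ (K : Set (E n)), inner ℝ y ν < inner ℝ x ν + 1 / ((m : ℝ) + 1))
  intro Ks Ls K L hK hL h
  obtain ⟨x, hx, h1, h2⟩ := h
  set δ : ℝ := 1 / ((m : ℝ) + 1) with hδ
  obtain ⟨y0, hy0, hmax⟩ := K.isCompact.exists_isMaxOn K.nonempty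
    (f := fun y : E n => inner ℝ y ν) (by fun_prop)
  have hg : 0 < inner ℝ x ν + δ - inner ℝ y0 ν := by
    have := h2 y0 hy0
    linarith
  set g : ℝ := inner ℝ x ν + δ - inner ℝ y0 ν with hgdef
  have hg2 : 0 < δ - infDist x (K : Set (E n)) := by linarith
  obtain ⟨r, hr0, hr1, hr2⟩ : ∃ r : ℝ, 0 < r ∧ 2 * r ≤ δ - infDist x (K : Set (E n)) ∧
      2 * r * ‖ν‖ < g := by
    refine ⟨min ((δ - infDist x (K : Set (E n))) / 2) (g / (4 * (‖ν‖ + 1))), ?_, ?_, ?_⟩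
    · apply lt_min
      · linarith
      · have : 0 < 4 * (‖ν‖ + 1) := by positivity
        positivity
    · have := min_le_left ((δ - infDist x (K : Set (E n))) / 2) (g / (4 * (‖ν‖ + 1)))
      linarith
    · have h3 := min_le_right ((δ - infDist x (K : Set (E n))) / 2) (g / (4 * (‖ν‖ + 1)))
      have h4 : 0 ≤ ‖ν‖ := norm_nonneg _
      have h5 : 0 < 4 * (‖ν‖ + 1) := by positivity
      have h6 : 2 * (g / (4 * (‖ν‖ + 1))) * ‖ν‖ < g := by
        rw [show 2 * (g / (4 * (‖ν‖ + 1))) * ‖ν‖ = (2 * g * ‖ν‖) / (4 * (‖ν‖ + 1)) by ring,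
          div_lt_iff₀ h5]
        nlinarith
      have h7 : 2 * min ((δ - infDist x (K : Set (E n))) / 2) (g / (4 * (‖ν‖ + 1))) * ‖ν‖ ≤
          2 * (g / (4 * (‖ν‖ + 1))) * ‖ν‖ := by
        apply mul_le_mul_of_nonneg_right _ h4
        linarith
      linarith
  have hK1 : ∀ᶠ j in atTop, dist (Ks j) K < r := hK.eventually (Metric.ball_mem_nhds K hr0)
  have hL1 : ∀ᶠ j in atTop, dist (Ls j) L < r := hL.eventually (Metric.ball_mem_nhds L hr0)
  obtain ⟨j, hj1, hj2⟩ := (hK1.and hL1).exists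
  refine ⟨j, ?_⟩
  obtain ⟨x', hx', hxd⟩ := near L (Ls j) x hx r (by rwa [dist_comm])
  refine ⟨x', hx', ?_, ?_⟩
  · have h3 : infDist x (Ks j : Set (E n)) ≤ infDist x (K : Set (E n)) +
        hausdorffDist (K : Set (E n)) (Ks j : Set (E n)) :=
      infDist_le_infDist_add_hausdorffDist ConvexBody.hausdorffEDist_ne_top
    rw [ConvexBody.hausdorffDist_coe] at h3
    have h4 : infDist x' (Ks j : Set (E n)) ≤ infDist x (Ks j : Set (E n)) + dist x' x :=
      infDist_le_infDist_add_dist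
    rw [dist_comm] at hj1 hxd
    linarith
  · intro y hy
    obtain ⟨y', hy', hyd⟩ := near (Ks j) K y hy r hj1
    have h3 : inner ℝ y' ν ≤ inner ℝ y0 ν := hmax hy'
    have h4 : |inner ℝ (y - y') ν| ≤ ‖y - y'‖ * ‖ν‖ := abs_real_inner_le_norm _ _
    have h5 : |inner ℝ (x - x') ν| ≤ ‖x - x'‖ * ‖ν‖ := abs_real_inner_le_norm _ _
    rw [inner_sub_left] at h4 h5
    rw [dist_eq_norm] at hyd hxd
    have h6 : ‖y - y'‖ * ‖ν‖ ≤ r * ‖ν‖ := mul_le_mul_of_nonneg_right hyd.le (norm_nonneg _)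
    have h7 : ‖x - x'‖ * ‖ν‖ ≤ r * ‖ν‖ := mul_le_mul_of_nonneg_right hxd.le (norm_nonneg _)
    have h8 := (abs_le.1 h4).2
    have h9 := (abs_le.1 h5).2
    have : inner ℝ x ν + δ - inner ℝ y0 ν = g := rfl
    linarith

end PV.H69
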